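import Pool.Agent.Run7.h414.DP.Eng
import Pool.Agent.R459.Eq18

/-!
# Lang–Trotter counts for random curves `y² = x³ + a x + n` whose coefficients are random integers with determinantal digits

The digits of the random integer `v` are given by a determinantal random set `S` of positions (a determinantal point process
with an arbitrary Hermitian kernel): the digit number `i` is `y i` if `i ∈ S` and `x i ≠ y i` otherwise. Examples (their
existence is not used and not formalised): the edges of a uniform spanning tree of a graph with `k` edges; stationary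
determinantal processes with any symbol which is not almost everywhere `0` or almost everywhere `1` (for example the discrete
sine process with any density); independent digits; and all the events for such processes whose probability is at least
`1 / k ^ t`, for example a prescribed number of elements of `S`.

Definitions used (in `Pool.Agent.Run7.h414.DP.Law`, `Pool.Agent.Run7.h414.DP.Fam` and `Pool.Agent.Run7.h414.DP.Alm`):
`DetLaw`, `GoodPos`, `DetDigits`, `AlmostD`.

Method: the characteristic function is `det (1 + D A)`; the inequality `|det N|² ≤ exp (tr N* N - k)` for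
`N = 1 + B D B*`, `A = B* B`, bounds it by `exp (- E)` with an energy `E` which is at least a constant times the number of
the places where the frequency is far from the rational numbers with small denominators. The passage to sums over primes of functions of residues is from the starting files (`Pool.Agent.R459.Eq`,
`Pool.Agent.N794.CG`).
-/

set_option autoImplicit false

namespace Pool.Agent.Results.MP_f1937f_nt.DeterminantalFamilies

open Finset Filter Pool.Agent.R459.Eq Pool.Agent.N794.CG
open Pool.Agent.W263.BSD (GoodPrime pointCount)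
open Pool.Agent.Run7.h414.DP (DetDigits AlmostD almostD_of two_det fine_det det_nonneg)

/-- `p` is a prime of good reduction of `y² = x³ + a x + n`, and the trace of Frobenius `a_p = p - N_p` is `r`. -/
def Trace (r : ℤ) (p : ℕ) (a n : ℤ) : Prop := GoodPrime a n p ∧ (p : ℤ) - pointCount a n p = r

open Classical in
/-- The number `P_{E, r}(x)` of the primes `p ≤ x` of good reduction of `E : y² = x³ + a x + n` with `a_p(E) = r`. -/
noncomputable def langTrotter (a n r : ℤ) (x : ℕ) : ℕ := ((range (x + 1)).filter (fun p => Trace r p a n)).card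

open Classical in
/-- The sum over the primes `p ≤ x` of the proportion of the residues `ν` modulo `p` for which `p` is a prime of good reduction
of `y² = x³ + a x + ν` with trace `r`. -/
noncomputable def model (a r : ℤ) (x : ℕ) : ℝ :=
  ∑ p ∈ (range (x + 1)).filter Nat.Prime, (((range p).filter (fun ν : ℕ => Trace r p a ν)).card : ℝ) / p

open Classical in
/-- The sum over the primes `p ≤ x` of the proportion of the pairs `(α, ν)` of residues modulo `p` for which `p` is a prime of
good reduction of `y² = x³ + α x + ν` with trace `r`. -/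
noncomputable def modelPairs (r : ℤ) (x : ℕ) : ℝ :=
  ∑ p ∈ (range (x + 1)).filter Nat.Prime,
    (((range p ×ˢ range p).filter (fun z : ℕ × ℕ => Trace r p z.1 z.2)).card : ℝ) / (p : ℝ) ^ 2

lemma pri_eq (x : ℕ) [DecidablePred Nat.Prime] : (range (x + 1)).filter Nat.Prime = pri x := by
  unfold pri
  congr!

lemma langTrotter_eq (a n r : ℤ) (x : ℕ) : langTrotter a n r x = cntR (Trace r) a n x := by
  classical
  unfold langTrotter cntR
  congr 1
  ext p
  simp only [mem_filter, mem_range, mem_pri]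
  constructor
  · rintro ⟨h1, h2⟩
    exact ⟨⟨by omega, h2.1.1⟩, h2⟩
  · rintro ⟨h1, h2⟩
    exact ⟨by omega, h2⟩

lemma model_eq (a r : ℤ) (x : ℕ) : model a r x = ∑ p ∈ pri x, Pool.Agent.R459.Eq.dens (Trace r) a p := by
  classical
  unfold model Pool.Agent.R459.Eq.dens
  rw [pri_eq]

lemma modelPairs_eq (r : ℤ) (x : ℕ) : modelPairs r x = ∑ p ∈ pri x, dens2 (Trace r) p := by
  classical
  unfold modelPairs dens2
  rw [pri_eq]

lemma trace_per (r : ℤ) (p : ℕ) (a a' n n' : ℤ) (h : (p : ℤ) ∣ a - a') (h' : (p : ℤ) ∣ n - n') :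
    Trace r p a n ↔ Trace r p a' n' := by
  have e1 : ((a : ℤ) : ZMod p) = ((a' : ℤ) : ZMod p) := by
    rw [← sub_eq_zero, ← Int.cast_sub, ZMod.intCast_zmod_eq_zero_iff_dvd]
    exact h
  have e2 : ((n : ℤ) : ZMod p) = ((n' : ℤ) : ZMod p) := by
    rw [← sub_eq_zero, ← Int.cast_sub, ZMod.intCast_zmod_eq_zero_iff_dvd]
    exact h'
  have h1 : GoodPrime a n p ↔ GoodPrime a' n' p := by
    unfold GoodPrime
    rw [← ZMod.intCast_zmod_eq_zero_iff_dvd, ← ZMod.intCast_zmod_eq_zero_iff_dvd]
    push_cast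
    rw [e1, e2]
  have h2 : pointCount a n p = pointCount a' n' p := by
    unfold pointCount
    rw [e1, e2]
  unfold Trace
  rw [h1, h2]


/-- Let `b ≥ 2`, `L` and `η > 0` be fixed. Let `0 < δ ≤ 1 / 2`. There is `W` such that for `κ ≠ 0` and all sufficiently large `X`
the following holds for all `t₀`, `k`, all `w` which are dominated, up to the factor `k ^ t₀`, by the distribution of an
integer with `k` determinantal digits (`DetDigits b L η t₀ k w`) and all `c`.

(1) For EVERY integer `a`: up to a `w`-weight of at most `4 k ^ t₀ X ^ (- δ / 2)` of the `v < b ^ k`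
the integer `n = c + κ v` satisfies for ALL `x ≥ X` with `x ^ W ≤ b ^ k` and ALL integers
`|r| ≤ x ^ (δ / 2)`: with `S` the sum over `p ≤ x` of the proportion of the residues `ν` modulo `p` such that
`y² = x³ + a x + ν` has the trace `r`, and `S'` the same sum over `p ≤ 2 x`, the number of the primes `p ≤ x` of good
reduction of `y² = x³ + a x + n` with the trace `r` differs from `S` by at most `(max 1 S') ^ (1 / 2) x ^ δ`.

(2) Up to a `w`-weight of at most `4 k ^ t₀ X ^ (- δ / 2)` the integer `a = c + κ v` satisfies for ALL `x ≥ X` with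
`x ^ W ≤ b ^ k` and ALL integers `|r| ≤ x ^ (δ / 2)`: the sum `S` differs from the sum over `p ≤ x` of the proportion of the
PAIRS of coefficients modulo `p` which have the trace `r` by at most `x ^ δ` times the square root of the maximum of `1` and
the sum of the proportions of the pairs over `p ≤ 2 x`. -/
theorem result (b L : ℕ) (hb : 2 ≤ b) (η : ℝ) (hη0 : 0 < η) (δ : ℝ) (hδ : 0 < δ)
    (hδ1 : δ ≤ 1 / 2) : ∃ W : ℕ, 1 ≤ W ∧ ∀ κ : ℤ, κ ≠ 0 → ∃ X₀ : ℕ, ∀ X : ℕ, X₀ ≤ X →
    ∀ (t₀ k : ℕ) (w : ℕ → ℝ), DetDigits b L η t₀ k w → ∀ c : ℤ,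
    (∀ a : ℤ, AlmostD b k w κ c (2 * ((k : ℝ) ^ t₀ * (2 * (X : ℝ) ^ (-(δ / 2))))) (fun n => ∀ x : ℕ, X ≤ x → x ^ W ≤ b ^ k → ∀ r : ℤ, (|r| : ℝ) ≤ (x : ℝ) ^ (δ / 2) →
      |(langTrotter a n r x : ℝ) - model a r x| ≤ √(max 1 (model a r (2 * x))) * (x : ℝ) ^ δ)) ∧
    AlmostD b k w κ c (2 * ((k : ℝ) ^ t₀ * (2 * (X : ℝ) ^ (-(δ / 2))))) (fun a => ∀ x : ℕ, X ≤ x → x ^ W ≤ b ^ k → ∀ r : ℤ, (|r| : ℝ) ≤ (x : ℝ) ^ (δ / 2) →
      |model a r x - modelPairs r x| ≤ √(max 1 (modelPairs r (2 * x))) * (x : ℝ) ^ δ) := by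
  obtain ⟨W, hW, H⟩ := two_det δ hδ hδ1 b L hb η hη0
  refine ⟨W, hW, fun κ hκ => ?_⟩
  obtain ⟨X₀, J⟩ := H κ hκ
  refine ⟨X₀, fun X hX t₀ k w hw c => ?_⟩
  have hfew : ∀ σ : ℤ, σ = 1 ∨ σ = -1 → ∀ p : ℕ, p.Prime → ∀ (a n : ℤ) (Q : Finset ℕ), (∀ j ∈ Q, Trace (σ * j) p a n) →
      Q.card ≤ Nat.log 2 p + 3 := by
    intro σ hσ p _ a n Q hQ
    have h1 : Q.card ≤ 1 := by
      rw [card_le_one]
      intro j hj j' hj'
      have h2 := (hQ j hj).2
      have h3 := (hQ j' hj').2
      rw [h2] at h3
      have h4 : (j : ℤ) = j' := by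
        rcases hσ with h | h <;> rw [h] at h3 <;> linarith
      exact_mod_cast h4
    omega
  obtain ⟨h1, h2⟩ := J X hX t₀ k w hw c (fun j : ℕ => Trace (1 * j)) (fun j p _ a a' n n' => trace_per _ p a a' n n')
    (hfew 1 (Or.inl rfl))
  obtain ⟨h3, h4⟩ := J X hX t₀ k w hw c (fun j : ℕ => Trace (-1 * j)) (fun j p _ a a' n n' => trace_per _ p a a' n n')
    (hfew (-1) (Or.inr rfl))
  have hr : ∀ r : ℤ, ∃ j : ℕ, (r = 1 * j ∨ r = -1 * j) ∧ (j : ℝ) = |(r : ℝ)| := by
    intro r
    refine ⟨r.natAbs, ?_, ?_⟩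
    · rcases Int.natAbs_eq r with h | h
      · left
        omega
      · right
        omega
    · rw [← Int.cast_abs, Int.abs_eq_natAbs]
      rfl
  have h8 : 2 * ((k : ℝ) ^ t₀ * (2 * (X : ℝ) ^ (-(δ / 2)))) = (k : ℝ) ^ t₀ * (2 * (X : ℝ) ^ (-(δ / 2))) + (k : ℝ) ^ t₀ * (2 * (X : ℝ) ^ (-(δ / 2))) := by ring
  rw [h8]
  constructor
  · intro a
    refine almostD_of (Mostly.and (fun i _ => det_nonneg hw i) (h1 a) (h3 a)) ?_
    rintro n ⟨hn, hn'⟩ x hXx hx r hrx
    rw [langTrotter_eq, model_eq, model_eq]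
    obtain ⟨j, hj | hj, hj2⟩ := hr r
    · rw [hj]
      exact (hn x hXx hx).2 j (by rw [hj2]; exact hrx)
    · rw [hj]
      exact (hn' x hXx hx).2 j (by rw [hj2]; exact hrx)
  · refine almostD_of (Mostly.and (fun i _ => det_nonneg hw i) h2 h4) ?_
    rintro a ⟨hn, hn'⟩ x hXx hx r hrx
    rw [model_eq, modelPairs_eq, modelPairs_eq]
    obtain ⟨j, hj | hj, hj2⟩ := hr r
    · rw [hj]
      exact (hn x hXx hx).2 j (by rw [hj2]; exact hrx)
    · rw [hj]
      exact (hn' x hXx hx).2 j (by rw [hj2]; exact hrx)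

end Pool.Agent.Results.MP_f1937f_nt.DeterminantalFamilies
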