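import Pool.Agent.Run7.h582.FM.Eg3

/-!
# Lang–Trotter counts for all the curves `y² = x³ + a x + b` with a coefficient near `lam n * x + c n`, for almost every `x` of all measures with Fourier decay

`langTrotter a b r X` is the number of the primes `p ≤ X` of good reduction of `E : y² = x³ + a x + b` with `a_p(E) = r`. Let
`N n ≥ exp (n ^ η)`, and let `lam n`, `c n` be real numbers with `N n / log ^ T (N n) ≤ lam n ≤ B N n` and `|c n| ≤ B N n`. The
theorem is about the curves one of whose coefficients is ANY integer at a distance of at most `log ^ V (N n)` from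
`lam n * x + c n`, for all large `n` and almost every real number `x` with respect to EVERY finite Borel measure with bounded
support whose Fourier transform is `O (|ξ| ^ (-δ'))` for some `δ' > 0`. Thus the exceptional sets of `x` have Fourier dimension
zero. The errors are of the size of the SQUARE ROOT of the main terms, up to a factor `X ^ δ`.

Method: a measure with polynomial Fourier decay is replaced by finite families of real numbers with the same exponential
sums (`Pool.Agent.Run7.h582.FM`); the characteristic functions of the integer parts of the members decay at all frequencies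
with many binary digits far from those of an integer (with the theorem on integer parts of helper193, `Pool.Agent.N193.PS`);
from there the passage to sums over primes of functions of residues is from the starting files (`Pool.Agent.R459.Eq`, and
helper794's form of it, `Pool.Agent.N794.CG`), and then the lemma of Borel and Cantelli is used.

Definitions used: in `Pool.Agent.W263.BSD` (file `Pool/Agent/W263/BSD/Defs.lean`): `pointCount a n p` is the number of the
solutions of `y² = x³ + a x + n` modulo `p`, `GoodPrime a n p`: `p` is a prime which does not divide `2 (4 a³ + 27 n²)`.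
-/

set_option autoImplicit false
set_option maxHeartbeats 4000000

namespace Pool.Agent.Results.MP_f1937f_nt.FourierDecayCurves

open Finset Filter MeasureTheory Pool.Agent.R459.Eq
open Pool.Agent.W263.BSD (GoodPrime pointCount)

/-- `N n ≥ exp (n ^ η)`, `|c n| ≤ B N n` and `N n / log ^ T (N n) ≤ lam n ≤ B N n` for large `n`. -/
def Scales (η : ℝ) (B T : ℕ) (N : ℕ → ℕ) (lam c : ℕ → ℝ) : Prop :=
  ∀ᶠ n : ℕ in atTop, Real.exp ((n : ℝ) ^ η) ≤ N n ∧ |c n| ≤ B * N n ∧ lam n ≤ B * N n ∧
    (N n : ℝ) ≤ lam n * Real.log (N n) ^ T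

/-- The distance of the integer `q` from the real number `y` is at most `log ^ V N`. -/
def Near (V N : ℕ) (y : ℝ) (q : ℤ) : Prop := |(q : ℝ) - y| ≤ Real.log N ^ V

/-- The range of the bounds for the primes: `log ^ L N ≤ X ≤ N ^ (1 / W)`. -/
def InRange (L W N X : ℕ) : Prop := Real.log N ^ L ≤ X ∧ (X : ℝ) ^ W ≤ N

/-- `μ` is a finite Borel measure with bounded support and its Fourier transform `ξ ↦ ∫ exp (i ξ t) dμ (t)` is
`O (|ξ| ^ (-δ))` for some `δ > 0`. -/
def FourierDecay (μ : Measure ℝ) : Prop :=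
  IsFiniteMeasure μ ∧ (∃ R : ℝ, μ (Set.Icc (-R) R)ᶜ = 0) ∧ ∃ C δ : ℝ, 0 < δ ∧ ∀ ξ : ℝ, ξ ≠ 0 →
    ‖∫ t : ℝ, Complex.exp (((ξ * t : ℝ) : ℂ) * Complex.I) ∂μ‖ ≤ C * |ξ| ^ (-δ)

/-- `p` is a prime of good reduction of `y² = x³ + a x + n`, and the trace of Frobenius `a_p = p - N_p` is `r`. -/
def Trace (r : ℤ) (p : ℕ) (a n : ℤ) : Prop := GoodPrime a n p ∧ (p : ℤ) - pointCount a n p = r

open Classical in
/-- The number `P_{E, r}(x)` of the primes `p ≤ x` of good reduction of `E : y² = x³ + a x + n` with `a_p(E) = r`. -/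
noncomputable def langTrotter (a n r : ℤ) (x : ℕ) : ℕ := ((range (x + 1)).filter (fun p => Trace r p a n)).card

open Classical in
/-- The sum over the primes `p ≤ x` of the proportion of the residues `ν` modulo `p` for which `p` is a prime of good reduction
of `y² = x³ + a x + ν` with trace `r`. -/
noncomputable def model (a r : ℤ) (x : ℕ) : ℝ :=
  ∑ p ∈ (range (x + 1)).filter Nat.Prime, (((range p).filter (fun ν : ℕ => Trace r p a ν)).card : ℝ) / p

open Classical in
/-- The sum over the primes `p ≤ x` of the proportion of the pairs `(α, ν)` of residues modulo `p` for which `p` is a prime of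
good reduction of `y² = x³ + α x + ν` with trace `r`. -/
noncomputable def modelPairs (r : ℤ) (x : ℕ) : ℝ :=
  ∑ p ∈ (range (x + 1)).filter Nat.Prime,
    (((range p ×ˢ range p).filter (fun z : ℕ × ℕ => Trace r p z.1 z.2)).card : ℝ) / (p : ℝ) ^ 2

lemma pri_eq (x : ℕ) [DecidablePred Nat.Prime] : (range (x + 1)).filter Nat.Prime = pri x := by
  unfold pri
  congr!

lemma langTrotter_eq (a n r : ℤ) (x : ℕ) : langTrotter a n r x = cntR (Trace r) a n x := by
  classical
  unfold langTrotter cntR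
  congr 1
  ext p
  simp only [mem_filter, mem_range, mem_pri]
  constructor
  · rintro ⟨h1, h2⟩
    exact ⟨⟨by omega, h2.1.1⟩, h2⟩
  · rintro ⟨h1, h2⟩
    exact ⟨by omega, h2⟩

lemma model_eq (a r : ℤ) (x : ℕ) : model a r x = ∑ p ∈ pri x, Pool.Agent.R459.Eq.dens (Trace r) a p := by
  classical
  unfold model Pool.Agent.R459.Eq.dens
  rw [pri_eq]

lemma modelPairs_eq (r : ℤ) (x : ℕ) : modelPairs r x = ∑ p ∈ pri x, dens2 (Trace r) p := by
  classical
  unfold modelPairs dens2
  rw [pri_eq]

lemma trace_per (r : ℤ) (p : ℕ) (a a' n n' : ℤ) (h : (p : ℤ) ∣ a - a') (h' : (p : ℤ) ∣ n - n') :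
    Trace r p a n ↔ Trace r p a' n' := by
  have e1 : ((a : ℤ) : ZMod p) = ((a' : ℤ) : ZMod p) := by
    rw [← sub_eq_zero, ← Int.cast_sub, ZMod.intCast_zmod_eq_zero_iff_dvd]
    exact h
  have e2 : ((n : ℤ) : ZMod p) = ((n' : ℤ) : ZMod p) := by
    rw [← sub_eq_zero, ← Int.cast_sub, ZMod.intCast_zmod_eq_zero_iff_dvd]
    exact h'
  have h1 : GoodPrime a n p ↔ GoodPrime a' n' p := by
    unfold GoodPrime
    rw [← ZMod.intCast_zmod_eq_zero_iff_dvd, ← ZMod.intCast_zmod_eq_zero_iff_dvd]
    push_cast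
    rw [e1, e2]
  have h2 : pointCount a n p = pointCount a' n' p := by
    unfold pointCount
    rw [e1, e2]
  unfold Trace
  rw [h1, h2]

lemma rel (σ : ℤ) (hσ : σ = 1 ∨ σ = -1) : Pool.Agent.Run7.h582.FM.Rel (fun j : ℕ => Trace (σ * j)) := by
  refine ⟨fun j p _ a a' n n' => trace_per _ p a a' n n', fun p _ a n Q hQ => ?_⟩
  have h1 : Q.card ≤ 1 := by
    rw [card_le_one]
    intro j hj j' hj'
    have h2 := (hQ j hj).2
    have h3 := (hQ j' hj').2
    rw [h2] at h3
    have h4 : (j : ℤ) = j' := by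
      rcases hσ with h | h <;> rw [h] at h3 <;> linarith
    exact_mod_cast h4
  omega

lemma sgn (r : ℤ) : ∃ j : ℕ, (r = 1 * j ∨ r = -1 * j) ∧ (j : ℝ) = |(r : ℝ)| := by
  refine ⟨r.natAbs, ?_, ?_⟩
  · rcases Int.natAbs_eq r with h | h
    · left
      omega
    · right
      omega
  · rw [← Int.cast_abs, Int.abs_eq_natAbs]
    rfl

/-- Let `0 < δ ≤ 1 / 2`. For every measure `μ` with `FourierDecay μ` there is `W` such that for all `η > 0`, `V`, `M` there is `L`
with the following property. Let sequences with `Scales η B T N lam c` be given.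

**(1)** For every `n` let at most `log ^ M (N n)` arbitrary integers `a n l` be given. For `μ`-almost every real number `x`, for
all large `n`: for ALL the integers `b` at a distance of at most `log ^ V (N n)` from `lam n * x + c n`, all the `a = a n l`, ALL
`X` with `log ^ L (N n) ≤ X` and `X ^ W ≤ N n` and ALL the integers `|r| ≤ X ^ (δ / 2)`: with `M` the sum over `p ≤ X` of the
proportion of the residues `ν` modulo `p` such that `y² = x³ + a x + ν` has the trace `r`, and `M'` the same sum over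
`p ≤ 2 X`, the number of the primes `p ≤ X` of good reduction of `y² = x³ + a x + b` with the trace `r` differs from `M` by at
most `(max 1 M') ^ (1 / 2) X ^ δ`.

**(2)** For `μ`-almost every real number `x`, for all large `n`: for ALL the integers `a` at a distance of at most
`log ^ V (N n)` from `lam n * x + c n`, the same `X` and `r`: the sum `M` differs from the sum over `p ≤ X` of the proportion of
the PAIRS of coefficients modulo `p` which have the trace `r` by at most `X ^ δ` times the square root of the maximum of `1` and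
the sum of the proportions of the pairs over `p ≤ 2 X`. -/
theorem result (δ : ℝ) (hδ : 0 < δ) (hδ1 : δ ≤ 1 / 2) (μ : Measure ℝ) (hμ : FourierDecay μ) : ∃ W : ℕ, 1 ≤ W ∧
    ∀ η : ℝ, 0 < η → ∀ V M : ℕ, ∃ L : ℕ,
      ∀ (B T : ℕ) (N : ℕ → ℕ) (lam c : ℕ → ℝ), Scales η B T N lam c →
      (∀ (m : ℕ → ℕ) (a : ∀ n, Fin (m n) → ℤ), (∀ᶠ n : ℕ in atTop, (m n : ℝ) ≤ Real.log (N n) ^ M) →
        ∀ᵐ x ∂μ, ∀ᶠ n : ℕ in atTop, ∀ b : ℤ, Near V (N n) (lam n * x + c n) b → ∀ l, ∀ X : ℕ, InRange L W (N n) X →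
          ∀ r : ℤ, (|r| : ℝ) ≤ (X : ℝ) ^ (δ / 2) →
          |(langTrotter (a n l) b r X : ℝ) - model (a n l) r X| ≤ √(max 1 (model (a n l) r (2 * X))) * (X : ℝ) ^ δ) ∧
      (∀ᵐ x ∂μ, ∀ᶠ n : ℕ in atTop, ∀ a : ℤ, Near V (N n) (lam n * x + c n) a → ∀ X : ℕ, InRange L W (N n) X →
          ∀ r : ℤ, (|r| : ℝ) ≤ (X : ℝ) ^ (δ / 2) →
          |model a r X - modelPairs r X| ≤ √(max 1 (modelPairs r (2 * X))) * (X : ℝ) ^ δ) := by
  obtain ⟨W₁, hW₁, H₁⟩ := Pool.Agent.Run7.h582.FM.ae_first δ hδ hδ1 μ hμ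
  obtain ⟨W₂, hW₂, H₂⟩ := Pool.Agent.Run7.h582.FM.ae_second δ hδ hδ1 μ hμ
  refine ⟨W₁ + W₂, by omega, fun η hη V M => ?_⟩
  obtain ⟨L₁, hL₁⟩ := H₁ η hη V M
  obtain ⟨L₂, hL₂⟩ := H₂ η hη V 0
  refine ⟨L₁ + L₂, fun B T N lam c hS => ?_⟩
  have hrange : ∀ᶠ n : ℕ in atTop, ∀ X : ℕ, InRange (L₁ + L₂) (W₁ + W₂) (N n) X →
      (Real.log (N n) ^ L₁ ≤ X ∧ (X : ℝ) ^ W₁ ≤ N n) ∧ (Real.log (N n) ^ L₂ ≤ X ∧ (X : ℝ) ^ W₂ ≤ N n) := by
    filter_upwards [(Pool.Agent.Run7.h582.FM.Sc.log' hη hS).eventually_ge_atTop 1] with n hn X hX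
    have hX1 : (1 : ℝ) ≤ X := (one_le_pow₀ hn).trans hX.1
    exact ⟨⟨(pow_le_pow_right₀ hn (by omega)).trans hX.1, (pow_le_pow_right₀ hX1 (by omega)).trans hX.2⟩,
      ⟨(pow_le_pow_right₀ hn (by omega)).trans hX.1, (pow_le_pow_right₀ hX1 (by omega)).trans hX.2⟩⟩
  constructor
  · intro m a hm
    filter_upwards [hL₁ B T N lam c hS m (fun _ _ j => Trace (1 * j)) a (fun _ _ => rel 1 (Or.inl rfl)) hm,
      hL₁ B T N lam c hS m (fun _ _ j => Trace (-1 * j)) a (fun _ _ => rel (-1) (Or.inr rfl)) hm] with x h1 h2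
    filter_upwards [h1, h2, hrange] with n k1 k2 hR b hb l X hX r hr
    obtain ⟨⟨r1, r2⟩, _⟩ := hR X hX
    rw [langTrotter_eq, model_eq, model_eq]
    obtain ⟨j, hj | hj, hj2⟩ := sgn r
    · rw [hj]
      exact (k1 b hb l X r1 r2).2 j (by rw [hj2]; exact hr)
    · rw [hj]
      exact (k2 b hb l X r1 r2).2 j (by rw [hj2]; exact hr)
  · filter_upwards [hL₂ B T N lam c hS (fun _ => 1) (fun _ _ j => Trace (1 * j)) (fun _ _ => rel 1 (Or.inl rfl))
        (Eventually.of_forall fun n => by simp),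
      hL₂ B T N lam c hS (fun _ => 1) (fun _ _ j => Trace (-1 * j)) (fun _ _ => rel (-1) (Or.inr rfl))
        (Eventually.of_forall fun n => by simp)] with x h1 h2
    filter_upwards [h1, h2, hrange] with n k1 k2 hR a ha X hX r hr
    obtain ⟨_, ⟨r1, r2⟩⟩ := hR X hX
    rw [model_eq, modelPairs_eq, modelPairs_eq]
    obtain ⟨j, hj | hj, hj2⟩ := sgn r
    · rw [hj]
      exact (k1 a ha 0 X r1 r2).2 j (by rw [hj2]; exact hr)
    · rw [hj]
      exact (k2 a ha 0 X r1 r2).2 j (by rw [hj2]; exact hr)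

end Pool.Agent.Results.MP_f1937f_nt.FourierDecayCurves
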