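import Pool.Agent.Run7.h710.TR.E
import Pool.Agent.R459.Eq18

/-!
# Lang–Trotter counts for almost all curves `y² = x³ + A x + n` whose coefficients are written by a transducer

The integers `v < a ^ k` are arbitrary, up to few exceptions; the transducer `T` reads the digits of `v` in base `a` and
writes the digits of `T(v)` in base `b` (definitions in `Pool.Agent.Run7.h710.TR.Defs`).

Method: if two words of `L` digits lead from the same state to the same state and different words are written, then the two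
parts of the exponential sum over the integers `T(v)` which belong to these words cancel in part at the places where the
frequency has a digit which is not extremal. The passage from such exponential sums to sums over primes of functions of residues, for almost
all members of a family, is from the starting library (`Pool.Agent.R459.Eq`, `Pool.Agent.N794.CG`).

Definitions used: in `Pool.Agent.W263.BSD` (file `Pool/Agent/W263/BSD/Defs.lean`): `pointCount a n p` is the number of the
solutions of `y² = x³ + a x + n` modulo `p`, `GoodPrime a n p`: `p` is a prime which does not divide `2 (4 a³ + 27 n²)`.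

Examples: the bitwise conjunction or disjunction of `v` and `m v` (the carries are the states); the integer whose digit `i`
is `f(x_i, x_{i+1}, …, x_{i+r})`, where `x_i` are the digits of `v` and `f` is not constant (one-sided cellular automata).
-/

set_option autoImplicit false

namespace Pool.Agent.Results.MP_f1937f_nt.TransducerFamilies

open Finset Filter Pool.Agent.R459.Eq Pool.Agent.N794.CG Pool.Agent.Run7.h710.TR
open Pool.Agent.W263.BSD (GoodPrime pointCount)

/-- `p` is a prime of good reduction of `y² = x³ + a x + n`, and the trace of Frobenius `a_p = p - N_p` is `r`. -/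
def Trace (r : ℤ) (p : ℕ) (a n : ℤ) : Prop := GoodPrime a n p ∧ (p : ℤ) - pointCount a n p = r

open Classical in
/-- The number `P_{E, r}(x)` of the primes `p ≤ x` of good reduction of `E : y² = x³ + a x + n` with `a_p(E) = r`. -/
noncomputable def langTrotter (a n r : ℤ) (x : ℕ) : ℕ := ((range (x + 1)).filter (fun p => Trace r p a n)).card

open Classical in
/-- The sum over the primes `p ≤ x` of the proportion of the residues `ν` modulo `p` for which `p` is a prime of good reduction
of `y² = x³ + a x + ν` with trace `r`. -/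
noncomputable def model (a r : ℤ) (x : ℕ) : ℝ :=
  ∑ p ∈ (range (x + 1)).filter Nat.Prime, (((range p).filter (fun ν : ℕ => Trace r p a ν)).card : ℝ) / p

open Classical in
/-- The sum over the primes `p ≤ x` of the proportion of the pairs `(α, ν)` of residues modulo `p` for which `p` is a prime of
good reduction of `y² = x³ + α x + ν` with trace `r`. -/
noncomputable def modelPairs (r : ℤ) (x : ℕ) : ℝ :=
  ∑ p ∈ (range (x + 1)).filter Nat.Prime,
    (((range p ×ˢ range p).filter (fun z : ℕ × ℕ => Trace r p z.1 z.2)).card : ℝ) / (p : ℝ) ^ 2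

lemma pri_eq (x : ℕ) [DecidablePred Nat.Prime] : (range (x + 1)).filter Nat.Prime = pri x := by
  unfold pri
  congr!

lemma langTrotter_eq (a n r : ℤ) (x : ℕ) : langTrotter a n r x = cntR (Trace r) a n x := by
  classical
  unfold langTrotter cntR
  congr 1
  ext p
  simp only [mem_filter, mem_range, mem_pri]
  constructor
  · rintro ⟨h1, h2⟩
    exact ⟨⟨by omega, h2.1.1⟩, h2⟩
  · rintro ⟨h1, h2⟩
    exact ⟨by omega, h2⟩

lemma model_eq (a r : ℤ) (x : ℕ) : model a r x = ∑ p ∈ pri x, Pool.Agent.R459.Eq.dens (Trace r) a p := by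
  classical
  unfold model Pool.Agent.R459.Eq.dens
  rw [pri_eq]

lemma modelPairs_eq (r : ℤ) (x : ℕ) : modelPairs r x = ∑ p ∈ pri x, dens2 (Trace r) p := by
  classical
  unfold modelPairs dens2
  rw [pri_eq]

lemma trace_per (r : ℤ) (p : ℕ) (a a' n n' : ℤ) (h : (p : ℤ) ∣ a - a') (h' : (p : ℤ) ∣ n - n') :
    Trace r p a n ↔ Trace r p a' n' := by
  have e1 : ((a : ℤ) : ZMod p) = ((a' : ℤ) : ZMod p) := by
    rw [← sub_eq_zero, ← Int.cast_sub, ZMod.intCast_zmod_eq_zero_iff_dvd]
    exact h
  have e2 : ((n : ℤ) : ZMod p) = ((n' : ℤ) : ZMod p) := by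
    rw [← sub_eq_zero, ← Int.cast_sub, ZMod.intCast_zmod_eq_zero_iff_dvd]
    exact h'
  have h1 : GoodPrime a n p ↔ GoodPrime a' n' p := by
    unfold GoodPrime
    rw [← ZMod.intCast_zmod_eq_zero_iff_dvd, ← ZMod.intCast_zmod_eq_zero_iff_dvd]
    push_cast
    rw [e1, e2]
  have h2 : pointCount a n p = pointCount a' n' p := by
    unfold pointCount
    rw [e1, e2]
  unfold Trace
  rw [h1, h2]

open Classical in
/-- Let `b ≥ 2`, `L ≥ 1` and `0 < δ ≤ 1 / 2`. There is `W` such that for `κ ≠ 0` and all sufficiently large `X` the following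
holds for all `k`. Let an arbitrary transducer be given which reads digits `< a` and writes digits `< b` (with finitely or infinitely many
states) such that from every state two words of `L` digits lead to the same state, while different words are written; let it
begin in an arbitrary state `s` and read from the left or from the right, and let `c` be any integer. `T(v)` is the integer which is written when `v` is read.

(1) For EVERY integer `A`, all the `v < a ^ k`, with at most `4 X ^ (- δ / 2) a ^ k` exceptions, have for ALL `x ≥ X` with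
`x ^ W ≤ b ^ k` and ALL integers `|r| ≤ x ^ (δ / 2)`: with `M` the sum over `p ≤ x` of the proportion of the residues `ν`
modulo `p` such that `y² = x³ + A x + ν` has the trace `r`, and `M'` the same sum over `p ≤ 2 x`, the number of the primes
`p ≤ x` of good reduction of `y² = x³ + A x + n`, `n = c + κ T(v)`, with the trace `r` differs from `M` by at most
`(max 1 M') ^ (1 / 2) x ^ δ`.

(2) For all the `v < a ^ k`, with at most `4 X ^ (- δ / 2) a ^ k` exceptions, with `A = c + κ T(v)`, for ALL `x ≥ X` with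
`x ^ W ≤ b ^ k` and ALL integers `|r| ≤ x ^ (δ / 2)`: the sum `M` differs from the sum over `p ≤ x` of the proportion of the
PAIRS of coefficients modulo `p` which have the trace `r` by at most `x ^ δ` times the square root of the maximum of `1` and
the sum of the proportions of the pairs over `p ≤ 2 x`. -/
theorem result (a b L : ℕ) (hb : 2 ≤ b) (hL : 1 ≤ L) (δ : ℝ) (hδ : 0 < δ) (hδ1 : δ ≤ 1 / 2) : ∃ W : ℕ, 1 ≤ W ∧
    ∀ κ : ℤ, κ ≠ 0 → ∃ X₀ : ℕ, ∀ X : ℕ, X₀ ≤ X → ∀ (k : ℕ) (S : Type) (τ : S → ℕ → S) (o : S → ℕ → ℕ), Transducer a b L τ o →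
    ∀ (left : Bool) (s : S) (c : ℤ),
    (∀ A : ℤ, (((range (a ^ k)).filter fun v => ¬ ∀ x : ℕ, X ≤ x → x ^ W ≤ b ^ k → ∀ r : ℤ, (|r| : ℝ) ≤ (x : ℝ) ^ (δ / 2) →
      |(langTrotter A (c + κ * (image a b τ o left k s v : ℕ)) r x : ℝ) - model A r x| ≤
        √(max 1 (model A r (2 * x))) * (x : ℝ) ^ δ).card : ℝ) ≤ 4 * (X : ℝ) ^ (-(δ / 2)) * (a : ℝ) ^ k) ∧
    (((range (a ^ k)).filter fun v => ¬ ∀ x : ℕ, X ≤ x → x ^ W ≤ b ^ k → ∀ r : ℤ, (|r| : ℝ) ≤ (x : ℝ) ^ (δ / 2) →
      |model (c + κ * (image a b τ o left k s v : ℕ)) r x - modelPairs r x| ≤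
        √(max 1 (modelPairs r (2 * x))) * (x : ℝ) ^ δ).card : ℝ) ≤ 4 * (X : ℝ) ^ (-(δ / 2)) * (a : ℝ) ^ k := by
  obtain ⟨W, hW, H⟩ := fineAt_tr δ hδ hδ1 a b L hb hL
  refine ⟨W, hW, fun κ hκ => ?_⟩
  obtain ⟨X₀, J⟩ := H κ hκ
  refine ⟨X₀, fun X hX k S τ o hTr left s c => ?_⟩
  have ha : 0 < a := by
    have := two_le hTr s
    omega
  have hfine := J X hX k S τ o hTr left s c
  have hfew : ∀ σ : ℤ, σ = 1 ∨ σ = -1 → ∀ p : ℕ, p.Prime → ∀ (a n : ℤ) (Q : Finset ℕ), (∀ j ∈ Q, Trace (σ * j) p a n) →
      Q.card ≤ Nat.log 2 p + 3 := by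
    intro σ hσ p _ a n Q hQ
    have h1 : Q.card ≤ 1 := by
      rw [card_le_one]
      intro j hj j' hj'
      have h2 := (hQ j hj).2
      have h3 := (hQ j' hj').2
      rw [h2] at h3
      have h4 : (j : ℤ) = j' := by
        rcases hσ with h | h <;> rw [h] at h3 <;> linarith
      exact_mod_cast h4
    omega
  obtain ⟨h1, h2⟩ := hfine.two_count (fun j : ℕ => Trace (1 * j)) (fun j p _ a a' n n' => trace_per _ p a a' n n')
    (hfew 1 (Or.inl rfl))
  obtain ⟨h3, h4⟩ := hfine.two_count (fun j : ℕ => Trace (-1 * j)) (fun j p _ a a' n n' => trace_per _ p a a' n n')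
    (hfew (-1) (Or.inr rfl))
  have hr : ∀ r : ℤ, ∃ j : ℕ, (r = 1 * j ∨ r = -1 * j) ∧ (j : ℝ) = |(r : ℝ)| := by
    intro r
    refine ⟨r.natAbs, ?_, ?_⟩
    · rcases Int.natAbs_eq r with h | h
      · left
        omega
      · right
        omega
    · rw [← Int.cast_abs, Int.abs_eq_natAbs]
      rfl
  have h8 : 4 * (X : ℝ) ^ (-(δ / 2)) = 2 * (X : ℝ) ^ (-(δ / 2)) + 2 * (X : ℝ) ^ (-(δ / 2)) := by ring
  rw [h8]
  constructor
  · intro A
    refine card_of_mostly ha (Mostly.and (fun i _ => wt_nonneg a k i) (h1 A) (h3 A))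
      (R := fun n : ℤ => ∀ x : ℕ, X ≤ x → x ^ W ≤ b ^ k → ∀ r : ℤ, (|r| : ℝ) ≤ (x : ℝ) ^ (δ / 2) →
      |(langTrotter A n r x : ℝ) - model A r x| ≤ √(max 1 (model A r (2 * x))) * (x : ℝ) ^ δ) ?_
    rintro n ⟨hn, hn'⟩ x hXx hx r hrx
    rw [langTrotter_eq, model_eq, model_eq]
    obtain ⟨j, hj | hj, hj2⟩ := hr r
    · rw [hj]
      exact (hn x hXx hx).2 j (by rw [hj2]; exact hrx)
    · rw [hj]
      exact (hn' x hXx hx).2 j (by rw [hj2]; exact hrx)
  · refine card_of_mostly ha (Mostly.and (fun i _ => wt_nonneg a k i) h2 h4)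
      (R := fun n : ℤ => ∀ x : ℕ, X ≤ x → x ^ W ≤ b ^ k → ∀ r : ℤ, (|r| : ℝ) ≤ (x : ℝ) ^ (δ / 2) →
      |model n r x - modelPairs r x| ≤ √(max 1 (modelPairs r (2 * x))) * (x : ℝ) ^ δ) ?_
    rintro n ⟨hn, hn'⟩ x hXx hx r hrx
    rw [model_eq, modelPairs_eq, modelPairs_eq]
    obtain ⟨j, hj | hj, hj2⟩ := hr r
    · rw [hj]
      exact (hn x hXx hx).2 j (by rw [hj2]; exact hrx)
    · rw [hj]
      exact (hn' x hXx hx).2 j (by rw [hj2]; exact hrx)

end Pool.Agent.Results.MP_f1937f_nt.TransducerFamilies
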