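import Pool.Agent.Run7.h844.RP.PwE2
import Pool.Agent.Run7.h844.RP.PwG

/-!
# Lang–Trotter counts for almost all curves `y² = x³ + a x + n` with coefficients from the values of generalised polynomials at
primes

From `Pool.Agent.W263.BSD` (file `Pool/Agent/W263/BSD/Defs.lean`): `pointCount a b p` is the number of the solutions of
`y² = x³ + a x + b` modulo `p`, `GoodPrime a b p`: `p` is a prime which does not divide `2 (4 a³ + 27 b²)`.

Method: exponential sums over primes with the phase of a generalised polynomial: derivative bounds uniform in the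
coefficients, van der Corput differencing of all orders, bilinear sums, Vaughan's identity (after `Pool.Agent.H895R3.NK`,
`Pool.Agent.H373R2.T7`), with a power saving at all frequencies up to a power, and a discrete Fejér kernel for the passage to
the integer parts (library `Pool.Agent.Run7.h844.RP`). The passage from such exponential sums to sums over primes of
functions of residues, for almost all members, is from the starting files (`Pool.Agent.R459.Eq`).
-/

set_option autoImplicit false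

namespace Pool.Agent.Results.MP_f1937f_nt.ValuesAtPrimes

open Finset Filter Pool.Agent.R459.Eq
open Pool.Agent.W263.BSD (GoodPrime pointCount)

/-- The generalised polynomial `∑ a x * t ^ x`, `x ∈ F`, with real exponents and coefficients. -/
noncomputable def genPoly (F : Finset ℝ) (a : ℝ → ℝ) (t : ℝ) : ℝ := ∑ x ∈ F, a x * t ^ x

/-- `c` is the largest exponent; it is positive and not an integer, and its coefficient is not zero. -/
def Leading (F : Finset ℝ) (a : ℝ → ℝ) (c : ℝ) : Prop :=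
  c ∈ F ∧ (∀ x ∈ F, x ≤ c) ∧ 0 < c ∧ (∀ m : ℕ, c ≠ m) ∧ a c ≠ 0

open Classical in
/-- Almost all the integers `n = c₀ + κ ⌊g(q) + z⌋`, where `N < q ≤ 2 N` is prime, up to a proportion of at most `τ` of these
primes `q`, have the property `P`. -/
def Almost (g : ℝ → ℝ) (N : ℕ) (z : ℝ) (κ c₀ : ℤ) (τ : ℝ) (P : ℤ → Prop) : Prop :=
  (((Ioc N (2 * N)).filter (fun q : ℕ => q.Prime ∧ ¬ P (c₀ + κ * ⌊g q + z⌋))).card : ℝ) ≤
    τ * ((Ioc N (2 * N)).filter Nat.Prime).card

lemma almost_of {F : Finset ℝ} {b : ℝ → ℝ} {N : ℕ} {z : ℝ} {κ c₀ : ℤ} {τ : ℝ} {P Q : ℤ → Prop}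
    (h : Pool.Agent.Run7.h844.RP.AlmostI (Pool.Agent.Run7.h844.RP.PB N) (Pool.Agent.Run7.h844.RP.vz F b z) κ c₀ τ P)
    (hPQ : ∀ n, P n → Q n) : Almost (genPoly F b) N z κ c₀ τ Q := by
  have h1 := Pool.Agent.Run7.h844.RP.AlmostI.mono h hPQ
  unfold Pool.Agent.Run7.h844.RP.AlmostI Pool.Agent.Run7.h844.RP.PB at h1
  rw [filter_filter] at h1
  unfold Almost
  convert h1
  rfl

/-- `p` is a prime of good reduction of `y² = x³ + a x + n`, and the trace of Frobenius `a_p = p - N_p` is `r`. -/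
def Trace (r : ℤ) (p : ℕ) (a n : ℤ) : Prop := GoodPrime a n p ∧ (p : ℤ) - pointCount a n p = r

open Classical in
/-- The number `P_{E, r}(x)` of the primes `p ≤ x` of good reduction of `E : y² = x³ + a x + n` with `a_p(E) = r`. -/
noncomputable def langTrotter (a n r : ℤ) (x : ℕ) : ℕ := ((range (x + 1)).filter (fun p => Trace r p a n)).card

open Classical in
/-- The sum over the primes `p ≤ x` of the proportion of the residues `ν` modulo `p` for which `p` is a prime of good reduction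
of `y² = x³ + a x + ν` with trace `r`. -/
noncomputable def model (a r : ℤ) (x : ℕ) : ℝ :=
  ∑ p ∈ (range (x + 1)).filter Nat.Prime, (((range p).filter (fun ν : ℕ => Trace r p a ν)).card : ℝ) / p

lemma pri_eq (x : ℕ) [DecidablePred Nat.Prime] : (range (x + 1)).filter Nat.Prime = pri x := by
  unfold pri
  congr!

lemma langTrotter_eq (a n r : ℤ) (x : ℕ) : langTrotter a n r x = cntR (Trace r) a n x := by
  classical
  unfold langTrotter cntR
  congr 1
  ext p
  simp only [mem_filter, mem_range, mem_pri]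
  constructor
  · rintro ⟨h1, h2⟩
    exact ⟨⟨by omega, h2.1.1⟩, h2⟩
  · rintro ⟨h1, h2⟩
    exact ⟨by omega, h2⟩

lemma model_eq (a r : ℤ) (x : ℕ) : model a r x = ∑ p ∈ pri x, Pool.Agent.R459.Eq.dens (Trace r) a p := by
  classical
  unfold model Pool.Agent.R459.Eq.dens
  rw [pri_eq]

lemma trace_per (r : ℤ) (p : ℕ) (a a' n n' : ℤ) (h : (p : ℤ) ∣ a - a') (h' : (p : ℤ) ∣ n - n') :
    Trace r p a n ↔ Trace r p a' n' := by
  have e1 : ((a : ℤ) : ZMod p) = ((a' : ℤ) : ZMod p) := by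
    rw [← sub_eq_zero, ← Int.cast_sub, ZMod.intCast_zmod_eq_zero_iff_dvd]
    exact h
  have e2 : ((n : ℤ) : ZMod p) = ((n' : ℤ) : ZMod p) := by
    rw [← sub_eq_zero, ← Int.cast_sub, ZMod.intCast_zmod_eq_zero_iff_dvd]
    exact h'
  have h1 : GoodPrime a n p ↔ GoodPrime a' n' p := by
    unfold GoodPrime
    rw [← ZMod.intCast_zmod_eq_zero_iff_dvd, ← ZMod.intCast_zmod_eq_zero_iff_dvd]
    push_cast
    rw [e1, e2]
  have h2 : pointCount a n p = pointCount a' n' p := by
    unfold pointCount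
    rw [e1, e2]
  unfold Trace
  rw [h1, h2]


/-- Let `g(t) = ∑ b x t ^ x` be a generalised polynomial whose largest exponent `c` is positive and not an integer, and let
`0 < δ ≤ 1 / 2`. There is `θ > 0` such that for all `κ ≠ 0` and all sufficiently large `X` and `N` the following holds for all
real numbers `z`, all integers `c₀` and EVERY integer `a`.

Almost all the integers `n = c₀ + κ ⌊g(q) + z⌋`, where `q` runs over the primes `N < q ≤ 2 N`, up to a proportion of at most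
`4 X ^ (- δ / 2)` of the `q`, have for ALL `x` with `X ≤ x ≤ N ^ θ` and ALL integers `|r| ≤ x ^ (δ / 2)`: with `S` the sum over
`p ≤ x` of the proportion of the residues `ν` modulo `p` such that `y² = x³ + a x + ν` has the trace `r`, and `S'` the same sum
over `p ≤ 2 x`, the number of the primes `p ≤ x` of good reduction of `y² = x³ + a x + n` with the trace `r` differs from `S` by
at most `(max 1 S') ^ (1 / 2) x ^ δ`. -/
theorem result (F : Finset ℝ) (b : ℝ → ℝ) (c : ℝ) (hF : Leading F b c) :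
    ∀ δ : ℝ, 0 < δ → δ ≤ 1 / 2 → ∃ θ : ℝ, 0 < θ ∧ ∀ κ : ℤ, κ ≠ 0 → ∃ X₀ : ℕ, ∀ X N : ℕ, X₀ ≤ X → X₀ ≤ N →
      ∀ (z : ℝ) (c₀ a : ℤ), Almost (genPoly F b) N z κ c₀ (4 * (X : ℝ) ^ (-(δ / 2))) (fun n =>
        ∀ x : ℕ, X ≤ x → (x : ℝ) ≤ (N : ℝ) ^ θ → ∀ r : ℤ, (|r| : ℝ) ≤ (x : ℝ) ^ (δ / 2) →
          |(langTrotter a n r x : ℝ) - model a r x| ≤ √(max 1 (model a r (2 * x))) * (x : ℝ) ^ δ) := by
  intro δ hδ hδ1
  obtain ⟨β, hβ, _, N₀, hfam⟩ := Pool.Agent.Run7.h844.RP.primes_fam F c hF.1 hF.2.2.2.1 hF.2.2.1 hF.2.1 b hF.2.2.2.2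
  obtain ⟨W, hW, H⟩ := Pool.Agent.Run7.h844.RP.ip_two_count δ hδ hδ1
  have hW0 : (0 : ℝ) < W := by exact_mod_cast hW
  refine ⟨β / W, by positivity, fun κ hκ => ?_⟩
  obtain ⟨X₀, J⟩ := H κ hκ
  refine ⟨X₀ + N₀, fun X N hX hN z c₀ a => ?_⟩
  have hfew : ∀ σ : ℤ, σ = 1 ∨ σ = -1 → ∀ p : ℕ, p.Prime → ∀ (a n : ℤ) (Q : Finset ℕ), (∀ j ∈ Q, Trace (σ * j) p a n) →
      Q.card ≤ Nat.log 2 p + 3 := by
    intro σ hσ p _ a n Q hQ
    have h1 : Q.card ≤ 1 := by
      rw [card_le_one]
      intro j hj j' hj'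
      have h2 := (hQ j hj).2
      have h3 := (hQ j' hj').2
      rw [h2] at h3
      have h4 : (j : ℤ) = j' := by
        rcases hσ with h | h <;> rw [h] at h3 <;> linarith
      exact_mod_cast h4
    omega
  obtain ⟨h1, h2⟩ := J X (by omega) ℕ _ _ _ (hfam N (by omega) z) c₀ (fun j : ℕ => Trace (1 * j)) (fun j p _ a a' n n' => trace_per _ p a a' n n') (hfew 1 (Or.inl rfl))
  obtain ⟨h3, h4⟩ := J X (by omega) ℕ _ _ _ (hfam N (by omega) z) c₀ (fun j : ℕ => Trace (-1 * j)) (fun j p _ a a' n n' => trace_per _ p a a' n n') (hfew (-1) (Or.inr rfl))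
  have hr : ∀ r : ℤ, ∃ j : ℕ, (r = 1 * j ∨ r = -1 * j) ∧ (j : ℝ) = |(r : ℝ)| := by
    intro r
    refine ⟨r.natAbs, ?_, ?_⟩
    · rcases Int.natAbs_eq r with h | h
      · left
        omega
      · right
        omega
    · rw [← Int.cast_abs, Int.abs_eq_natAbs]
      rfl
  have h8 : (4 : ℝ) * (X : ℝ) ^ (-(δ / 2)) = 2 * (X : ℝ) ^ (-(δ / 2)) + 2 * (X : ℝ) ^ (-(δ / 2)) := by ring
  rw [h8]
  refine almost_of (Pool.Agent.Run7.h844.RP.AlmostI.and (h1 a) (h3 a)) ?_
  rintro n ⟨hn, hn'⟩ x hXx hxN r hrx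
  have hxW := Pool.Agent.Run7.h844.RP.le_pow_of hW hxN
  rw [langTrotter_eq, model_eq, model_eq]
  obtain ⟨j, hj | hj, hj2⟩ := hr r
  · rw [hj]
    exact (hn x hXx hxW).2 j (by rw [hj2]; exact hrx)
  · rw [hj]
    exact (hn' x hXx hxW).2 j (by rw [hj2]; exact hrx)

end Pool.Agent.Results.MP_f1937f_nt.ValuesAtPrimes
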